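import Pool.Agent.Helper22.G4.GenFam
import Pool.Agent.Helper22.G4.St.P8
import Pool.Agent.Helper22.G4.St.P2
import Pool.Agent.Helper22.G4.St.H1

/-! # G4-H3: flats are forced -/

namespace Pool.Agent.Helper86.G4

open Submodule Pool.Agent.Helper22.G4

/-! ### cyclic pairs -/

lemma length_cycPairs {α : Type} {l : List α} (h : 1 ≤ l.length) :
    (cycPairs l).length = l.length := by
  simp only [cycPairs, List.length_zip, List.length_append, List.length_tail, List.length_take]
  omega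

lemma getElem_cycPairs {α : Type} {l : List α} {k : ℕ} (hk : k < l.length)
    (hk' : k < (cycPairs l).length) :
    (cycPairs l)[k] = (l[k], l[(k + 1) % l.length]'(Nat.mod_lt _ (by omega))) := by
  simp only [cycPairs, List.getElem_zip, Prod.mk.injEq, true_and]
  rcases Nat.lt_or_ge (k + 1) l.length with h | h
  · rw [List.getElem_append_left (by simp; omega)]
    simp [Nat.mod_eq_of_lt h]
  · have e : k + 1 = l.length := by omega
    have e2 : (k + 1) % l.length = 0 := by rw [e]; exact Nat.mod_self _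
    have e3 : k - l.tail.length = 0 := by rw [List.length_tail]; omega
    rw [List.getElem_append_right (by rw [List.length_tail]; omega)]
    simp only [e2, e3, List.getElem_take]

section rank

variable {V E : Type*} [AddCommGroup E] [Module ℝ E]

lemma li_of_rk {c : V → E} {T : Finset V} (h : rk c (T : Set V) = T.card) :
    LinearIndependent ℝ (fun t : T => c t) := by
  rw [linearIndependent_iff_card_eq_finrank_span, Fintype.card_coe, ← h, rk, Set.finrank]
  have : c '' (T : Set V) = Set.range (fun t : T => c t) := by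
    ext x
    simp
  rw [this]

lemma rk_of_li {c : V → E} {T S : Finset V} (h : LinearIndependent ℝ (fun t : T => c t))
    (hS : S ⊆ T) : rk c (S : Set V) = S.card := by
  have h2 : LinearIndependent ℝ (fun t : S => c t) :=
    h.comp (fun t : S => (⟨t.1, hS t.2⟩ : T)) (fun a b hab => by
      simp only [Subtype.mk.injEq] at hab
      exact Subtype.ext hab)
  rw [linearIndependent_iff_card_eq_finrank_span, Fintype.card_coe, Set.finrank] at h2
  have : c '' (S : Set V) = Set.range (fun t : S => c t) := by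
    ext x
    simp
  rw [h2, rk, this]

/-- sub-simplices of a simplex face, in terms of lists -/
lemma sub_face [DecidableEq V] {c : V → E} {A : Finset V} {T : List V} (hnd : T.Nodup)
    (hl : T.length = 4) (h : FaceOn c A {w | w ∈ T} ∧ rk c {w | w ∈ T} = 4) {S : List V}
    (hS : S.Nodup) (hST : ∀ w ∈ S, w ∈ T) :
    FaceOn c A {w | w ∈ S} ∧ rk c {w | w ∈ S} = S.length := by
  have e : ({w | w ∈ T} : Set V) = (T.toFinset : Set V) := by ext; simp
  have e' : ({w | w ∈ S} : Set V) = (S.toFinset : Set V) := by ext; simp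
  rw [e] at h
  have hcard : T.toFinset.card = 4 := by rw [List.toFinset_card_of_nodup hnd, hl]
  have li := li_of_rk (T := T.toFinset) (c := c) (by rw [h.2, hcard])
  have hsub : S.toFinset ⊆ T.toFinset := fun w hw => by
    rw [List.mem_toFinset] at hw ⊢
    exact hST w hw
  rw [e', rk_of_li li hsub, List.toFinset_card_of_nodup hS]
  exact ⟨FaceOn.of_simplex h.1 li (by exact_mod_cast hsub), rfl⟩

end rank

variable {α φ : Type} [DecidableEq α] [DecidableEq φ]

/-- G4-H3 (flats are forced). -/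
theorem gen_flat {D : Data α φ} (hD : D.Good) {c : W α φ → E5} (hc : Conf c D.l3.toFinset)
    (hs : span ℝ (c '' (D.l3.toFinset : Set (W α φ))) = ⊤)
    (ha : ∀ u ∈ D.l3, ∀ v ∈ D.l3, u ≠ v → (FaceOn c D.l3.toFinset {u, v} ↔ D.adjW u v))
    (hT : ∀ R ∈ D.flats, ∀ T ∈ Ts R, FaceOn c D.l3.toFinset {w | w ∈ T} ∧ rk c {w | w ∈ T} = 4) :
    ∀ R ∈ D.flats, FaceOn c D.l3.toFinset {w | ∃ a ∈ R.1, w = W.v a} ∧
      rk c {w | ∃ a ∈ R.1, w = W.v a} = 3 := by
  intro R hR
  have hlen := hD.len R hR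
  have hnd := hD.nd R hR
  obtain ⟨n, hn⟩ : ∃ n, R.1.length = n + 4 := ⟨R.1.length - 4, by omega⟩
  have hclen : (cycPairs R.1).length = n + 4 := by rw [length_cycPairs (by omega), hn]
  -- the membership facts
  have hvl : ∀ a ∈ R.1, (W.v a : W α φ) ∈ D.l3 := fun a h => by
    simp only [Data.l3, Data.l2, Data.l1, Data.l0, List.mem_append, List.mem_map]
    exact Or.inl (Or.inl (Or.inl ⟨a, hD.sub R hR a h, rfl⟩))
  have hpl : (W.p R : W α φ) ∈ D.l3 := by
    simp only [Data.l3, Data.l2, List.mem_append, List.mem_map]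
    exact Or.inl (Or.inr ⟨R, hR, rfl⟩)
  have hql : (W.q R : W α φ) ∈ D.l3 := by
    simp only [Data.l3, List.mem_append, List.mem_map]
    exact Or.inr ⟨R, hR, rfl⟩
  have hxl : ∀ f ∈ D.fcodes, (W.x f : W α φ) ∈ D.l3 := fun f hf => by
    simp only [Data.l3, Data.l2, Data.l1, List.mem_append, List.mem_map]
    exact Or.inl (Or.inl (Or.inr ⟨f, hf, rfl⟩))
  -- the polygon
  set r : Fin (n + 4) → W α φ := fun i => W.v (R.1[i.val]'(by have := i.2; omega)) with hr
  have hval : ∀ i : Fin (n + 4), (i + 1).val = (i.val + 1) % (n + 4) := fun i => by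
    rw [Fin.val_add]
    rfl
  have hr1 : ∀ i : Fin (n + 4), r (i + 1) =
      W.v (R.1[(i.val + 1) % R.1.length]'(Nat.mod_lt _ (by omega))) := fun i => by
    simp only [hr, hval, hn]
  have hrange : Set.range r = {w | ∃ a ∈ R.1, w = W.v a} := by
    ext w
    simp only [Set.mem_range, Set.mem_ofPred_eq]
    constructor
    · rintro ⟨i, rfl⟩
      exact ⟨_, List.getElem_mem _, rfl⟩
    · rintro ⟨a, h, rfl⟩
      obtain ⟨k, hk, rfl⟩ := List.getElem_of_mem h
      exact ⟨⟨k, by omega⟩, rfl⟩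
  have hinj : Function.Injective r := fun i j hij => by
    simp only [hr, W.v, Sum.inl.injEq] at hij
    exact Fin.ext ((hnd.getElem_inj_iff).1 hij)
  have hpair : ∀ i : Fin (n + 4), (cycPairs R.1)[i.val]'(by rw [hclen]; exact i.2) =
      (R.1[i.val]'(by have := i.2; omega), R.1[(i.val + 1) % R.1.length]'(Nat.mod_lt _ (by omega))) :=
    fun i => getElem_cycPairs (by have := i.2; omega) _
  have hsucc : ∀ i : Fin (n + 4), r i ≠ r (i + 1) := fun i h => by
    have h1 := hinj h
    have h2 : i.val = (i.val + 1) % (n + 4) := by rw [← hval, ← h1]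
    have h3 := i.2
    rcases Nat.lt_or_ge (i.val + 1) (n + 4) with h4 | h4
    · rw [Nat.mod_eq_of_lt h4] at h2; omega
    · have h5 : i.val + 1 = n + 4 := by omega
      rw [h5, Nat.mod_self] at h2; omega
  -- the simplices
  have hT1 : ∀ i : Fin (n + 4), i ≠ 0 →
      [W.p R, W.x R.2.1, r i, r (i + 1)] ∈ Ts R ∧ [W.q R, W.x R.2.2, r i, r (i + 1)] ∈ Ts R := by
    intro i hi
    have hi0 : 1 ≤ i.val := by
      rcases Nat.eq_zero_or_pos i.val with h | h
      · exact absurd (Fin.ext h) hi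
      · exact h
    have hmem : ((R.1[i.val]'(by have := i.2; omega)),
        R.1[(i.val + 1) % R.1.length]'(Nat.mod_lt _ (by omega))) ∈ (cycPairs R.1).drop 1 := by
      rw [List.mem_drop_iff_getElem]
      refine ⟨i.val - 1, by rw [hclen]; have := i.2; omega, ?_⟩
      rw [← hpair i]
      congr 1
      omega
    rw [hr1 i]
    constructor
    · unfold Ts
      rw [List.mem_append]
      refine Or.inl (List.mem_flatMap.2 ⟨_, hmem, ?_⟩)
      simp [hr]
    · unfold Ts
      rw [List.mem_append]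
      refine Or.inl (List.mem_flatMap.2 ⟨_, hmem, ?_⟩)
      simp [hr]
  have hT0 : [W.p R, W.q R, r 0, r 1] ∈ Ts R ∧ [W.p R, W.q R, W.x R.2.1, r 0] ∈ Ts R ∧
      [W.p R, W.q R, W.x R.2.1, r 1] ∈ Ts R := by
    have hmem : ((R.1[(0 : Fin (n + 4)).val]'(by have := (0 : Fin (n + 4)).2; omega)),
        R.1[((0 : Fin (n + 4)).val + 1) % R.1.length]'(Nat.mod_lt _ (by omega))) ∈
        (cycPairs R.1).take 1 := by
      rw [List.mem_take_iff_getElem]
      refine ⟨0, by rw [hclen]; omega, ?_⟩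
      rw [← hpair 0]
      rfl
    have h01 : (r 1) = r (0 + 1) := by rw [zero_add]
    rw [h01, hr1 0]
    refine ⟨?_, ?_, ?_⟩
    all_goals
      unfold Ts
      rw [List.mem_append]
      refine Or.inr (List.mem_flatMap.2 ⟨_, hmem, ?_⟩)
      simp [hr]
  have hvx : ∀ (a : α) (f : φ), (W.v a : W α φ) ≠ W.x f := fun a f h => by simp at h
  have hvp : ∀ (a : α) (f : Flat α φ), (W.v a : W α φ) ≠ W.p f := fun a f h => by simp at h
  have hvq : ∀ (a : α) (f : Flat α φ), (W.v a : W α φ) ≠ W.q f := fun a f h => by simp at h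
  have hpq : (W.p R : W α φ) ≠ W.q R := by simp
  have hpx : ∀ f : φ, (W.p R : W α φ) ≠ W.x f := fun f => by simp
  have hqx : ∀ f : φ, (W.q R : W α φ) ≠ W.x f := fun f => by simp
  have hrA : ∀ i, r i ∈ D.l3 := fun i => hvl _ (List.getElem_mem _)
  -- faces with three or four elements
  have h01 : r 0 ≠ r 1 := by have := hsucc 0; rwa [zero_add] at this
  have hnd4 : ∀ (a b : W α φ) (i j : Fin (n + 4)), a ≠ b → (∀ k, a ≠ r k) → (∀ k, b ≠ r k) →
      r i ≠ r j → [a, b, r i, r j].Nodup := by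
    intro a b i j h1 h2 h3 h4
    simp only [List.nodup_cons, List.mem_cons, List.not_mem_nil, or_false, not_or,
      List.nodup_nil, and_true, not_false_iff]
    exact ⟨⟨h1, h2 i, h2 j⟩, ⟨h3 i, h3 j⟩, h4⟩
  have hnd3 : ∀ (a : W α φ) (i j : Fin (n + 4)), (∀ k, a ≠ r k) →
      r i ≠ r j → [a, r i, r j].Nodup := by
    intro a i j h2 h4
    simp only [List.nodup_cons, List.mem_cons, List.not_mem_nil, or_false, not_or,
      List.nodup_nil, and_true, not_false_iff]
    exact ⟨⟨h2 i, h2 j⟩, h4⟩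
  have hndx : ∀ (i : Fin (n + 4)), [W.p R, W.q R, W.x R.2.1, r i].Nodup := by
    intro i
    simp [hr]
  have hpr : ∀ i, (W.p R : W α φ) ≠ r i := fun i => by simp [hr]
  have hqr : ∀ i, (W.q R : W α φ) ≠ r i := fun i => by simp [hr]
  have hxr : ∀ (f : φ) i, (W.x f : W α φ) ≠ r i := fun f i => by simp [hr]
  have e3 : ∀ a b d : W α φ, ({a, b, d} : Set (W α φ)) = {w | w ∈ [a, b, d]} := fun a b d => by
    ext w; simp
  have e4 : ∀ a b d e : W α φ, ({a, b, d, e} : Set (W α φ)) = {w | w ∈ [a, b, d, e]} :=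
    fun a b d e => by ext w; simp
  have hp3 : ∀ i, FaceOn c D.l3.toFinset {W.p R, r i, r (i + 1)} ∧
      rk c {W.p R, r i, r (i + 1)} = 3 := by
    intro i
    rw [e3]
    by_cases hi : i = 0
    · subst hi
      rw [zero_add]
      exact sub_face (T := [W.p R, W.q R, r 0, r 1]) (hnd4 _ _ _ _ hpq hpr hqr h01) rfl
        (hT R hR _ hT0.1) (hnd3 _ _ _ hpr h01) (by simp)
    · exact sub_face (T := [W.p R, W.x R.2.1, r i, r (i + 1)])
        (hnd4 _ _ _ _ (hpx _) hpr (hxr _) (hsucc i)) rfl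
        (hT R hR _ (hT1 i hi).1) (hnd3 _ _ _ hpr (hsucc i)) (by simp)
  have hq3 : ∀ i, FaceOn c D.l3.toFinset {W.q R, r i, r (i + 1)} ∧
      rk c {W.q R, r i, r (i + 1)} = 3 := by
    intro i
    rw [e3]
    by_cases hi : i = 0
    · subst hi
      rw [zero_add]
      exact sub_face (T := [W.p R, W.q R, r 0, r 1]) (hnd4 _ _ _ _ hpq hpr hqr h01) rfl
        (hT R hR _ hT0.1) (hnd3 _ _ _ hqr h01) (by simp)
    · exact sub_face (T := [W.q R, W.x R.2.2, r i, r (i + 1)])
        (hnd4 _ _ _ _ (hqx _) hqr (hxr _) (hsucc i)) rfl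
        (hT R hR _ (hT1 i hi).2) (hnd3 _ _ _ hqr (hsucc i)) (by simp)
  -- chords and connectivity
  have hchord : ∀ i j, j ≠ i → j ≠ i + 1 → i ≠ j + 1 →
      ¬ FaceOn c D.l3.toFinset {r i, r j} := by
    have key : ∀ i j : Fin (n + 4), j ≠ i + 1 →
        (R.1[i.val]'(by have := i.2; omega), R.1[j.val]'(by have := j.2; omega)) ∉
          cycPairs R.1 := by
      intro i j hij hmem
      obtain ⟨k, hk, hke⟩ := List.getElem_of_mem hmem
      have hk' : k < n + 4 := by omega
      have := hpair ⟨k, hk'⟩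
      simp only at this
      rw [this] at hke
      simp only [Prod.mk.injEq] at hke
      have e1 := (hnd.getElem_inj_iff).1 hke.1
      have e2 := (hnd.getElem_inj_iff).1 hke.2
      apply hij
      apply Fin.ext
      rw [hval, ← e2, e1, hn]
    intro i j h1 h2 h3 hF
    have hne : r i ≠ r j := fun h => h1 (hinj h).symm
    rw [ha _ (hrA i) _ (hrA j) hne] at hF
    refine gen_chord hD R hR _ (List.getElem_mem _) _ (List.getElem_mem _) ?_ (key i j h2)
      (key j i h3) hF
    intro h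
    exact hne (by simp only [hr, h])
  have hconn : ∀ u ∈ D.l3.toFinset, ∀ v ∈ D.l3.toFinset, u ∉ Set.range r → v ∉ Set.range r →
      u ≠ W.p R → u ≠ W.q R → v ≠ W.p R → v ≠ W.q R →
      Relation.ReflTransGen (fun a b => b ∈ D.l3.toFinset ∧ b ∉ Set.range r ∧ b ≠ W.p R ∧
        b ≠ W.q R ∧ a ≠ b ∧ FaceOn c D.l3.toFinset {a, b}) u v := by
    intro u hu v hv hur hvr hup huq hvp hvq
    have eZ : ∀ w : W α φ, w ∉ Zs R ∪ {W.q R} ↔ w ∉ Set.range r ∧ w ≠ W.p R ∧ w ≠ W.q R := by
      intro w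
      rw [hrange]
      simp only [Zs, Set.mem_union, Set.mem_ofPred_eq, Set.mem_singleton_iff, not_or]
      tauto
    have hu' := List.mem_toFinset.1 hu
    have hv' := List.mem_toFinset.1 hv
    have hpath := gen_conn hD R hR u hu' v hv' ((eZ u).2 ⟨hur, hup, huq⟩)
      ((eZ v).2 ⟨hvr, hvp, hvq⟩)
    clear hv hvr hvp hvq hv'
    have : Relation.ReflTransGen (fun a b => b ∈ D.l3.toFinset ∧ b ∉ Set.range r ∧ b ≠ W.p R ∧
        b ≠ W.q R ∧ a ≠ b ∧ FaceOn c D.l3.toFinset {a, b}) u v ∧ v ∈ D.l3 := by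
      induction hpath with
      | refl => exact ⟨Relation.ReflTransGen.refl, hu'⟩
      | tail _ hbc ih =>
        obtain ⟨h1, h2, h3, h4⟩ := hbc
        have h2' := (eZ _).1 h2
        exact ⟨ih.1.tail ⟨List.mem_toFinset.2 h1, h2'.1, h2'.2.1, h2'.2.2, h3,
          (ha _ ih.2 _ h1 h3).2 h4⟩, h1⟩
    exact this.1
  have main := forcing hc hs r hinj (fun i => List.mem_toFinset.2 (hrA i))
    (p := W.p R) (q := W.q R) (s := W.x R.2.1) (List.mem_toFinset.2 hpl)
    (List.mem_toFinset.2 hql) (List.mem_toFinset.2 (hxl _ (hD.mem1 R hR))) hpq (hpx _) (hqx _)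
    hpr hqr (hxr _) (fun i => (hp3 i).1) (fun i => (hp3 i).2) (fun i => (hq3 i).1)
    (by rw [e4]; exact (hT R hR _ hT0.1).1) (by rw [e4]; exact (hT R hR _ hT0.1).2)
    (by rw [e4]; exact (hT R hR _ hT0.2.2).1) (by rw [e4]; exact (hT R hR _ hT0.2.2).2)
    (by rw [e4]; exact (hT R hR _ hT0.2.1).1) (by rw [e4]; exact (hT R hR _ hT0.2.1).2)
    hchord hconn
  rwa [hrange] at main

end Pool.Agent.Helper86.G4
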